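import Pool.Agent.H75.Lv.Iface
import Pool.Agent.H74.Tri.MIrr

set_option autoImplicit false

/-! MP_2e6055, module INST (helper11): STI, RST. -/

namespace Pool.Agent.H11.Lv

open Pool.Agent.H7.UC Pool.Agent.H74.Tri Pool.Agent.H75.Lv

theorem int1' : Int1 := Pool.Agent.H98.Tri.int1
theorem int2' : Int2 := Pool.Agent.H98.Tri.int2 Pool.Agent.H63.UC.d1 Pool.Agent.H63.UC.d1b

theorem rev_succ {ω : Fc → Bool} {p : Pos} {t : ℕ} {f : Fc} :
    f ∈ Rev ω p (t + 1) ↔ f ∈ Rev ω p t ∨ f = ph (orb ω p t) := by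
  constructor
  · rintro ⟨i, hi, hf⟩
    rcases Nat.lt_or_ge i (t + 1) with h | h
    · exact Or.inl ⟨i, by omega, hf⟩
    · have hi' : i = t + 1 := by omega
      subst hi'
      rcases next_cases ω p t with ⟨h1, h2⟩ | ⟨h1, h2⟩
      · rw [h1, h2] at hf
        rcases hf with hf | hf
        · exact Or.inr hf
        · exact Or.inl ⟨t, le_rfl, Or.inr hf⟩
      · rw [h1, h2] at hf
        rcases hf with hf | hf
        · exact Or.inl ⟨t, le_rfl, Or.inl hf⟩
        · exact Or.inr hf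
  · rintro (h | h)
    · exact Rev.mono (Nat.le_succ t) h
    · subst h
      exact ⟨t + 1, le_rfl, ph_next ω p t⟩

/-- the revealed faces up to time `t0 + i` -/
theorem rev_add {ω : Fc → Bool} {p : Pos} {t0 i : ℕ} {f : Fc} :
    f ∈ Rev ω p (t0 + i) ↔ f ∈ Rev ω p t0 ∨ f ∈ Rev ω (orb ω p t0) i := by
  constructor
  · rintro ⟨j, hj, hf⟩
    rcases Nat.lt_or_ge t0 j with h | h
    · refine Or.inr ⟨j - t0, by omega, ?_⟩
      rw [← orb_add, Nat.add_sub_cancel' h.le]
      exact hf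
    · exact Or.inl ⟨j, h, hf⟩
  · rintro (⟨j, hj, hf⟩ | ⟨j, hj, hf⟩)
    · exact ⟨j, by omega, hf⟩
    · refine ⟨t0 + j, by omega, ?_⟩
      rw [orb_add]
      exact hf

/-- unexplored faces -/
theorem mem_sd {U : Finset Fc} {ω : Fc → Bool} {p : Pos} {i : ℕ} {f : Fc} :
    f ∈ U \ expl U ω p i ↔ f ∈ U ∧ f ∉ Rev ω p i := by
  rw [Finset.mem_sdiff, mem_expl]
  tauto

theorem mem_unx {U : Finset Fc} {ω : Fc → Bool} {p : Pos} {i : ℕ} {z f : Fc}
    (h : f ∈ unx U ω p i z) : f ∈ U ∧ f ∉ Rev ω p i := mem_sd.1 (comp_sub _ _ h)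

theorem unx_self {U : Finset Fc} {ω : Fc → Bool} {p : Pos} {i : ℕ} {z : Fc} (hz : z ∈ U)
    (hz' : z ∉ Rev ω p i) : z ∈ unx U ω p i z := mem_comp_self (mem_sd.2 ⟨hz, hz'⟩)

theorem sti' (U : Finset Fc) (ω : Fc → Bool) (p : Pos) (hU : St U ω) (hp : IsTip U ω p) (i : ℕ) :
    ∀ z ∈ U, z ∉ Rev ω p i → St (unx U ω p i z) ω := by
  induction i with
  | zero =>
    intro z hz _
    have e : U \ expl U ω p 0 = U := by
      ext f
      rw [mem_sd]
      constructor
      · exact fun h => h.1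
      · intro h
        refine ⟨h, ?_⟩
        rintro ⟨j, hj, hf⟩
        have hj' : j = 0 := by omega
        subst hj'
        rw [orb_zero] at hf
        rcases hf with rfl | rfl
        · exact hp.2.1 h
        · exact hp.2.2.1 h
    have e2 : unx U ω p 0 z = U := by
      unfold unx
      rw [e]
      ext f
      exact ⟨fun h => comp_sub _ _ h, fun h => mem_comp.2 ⟨h, hU.dom.conn z hz f h⟩⟩
    rw [e2]
    exact hU
  | succ i ih =>
    intro z hz hzR
    have hzR' : z ∉ Rev ω p i := fun h => hzR (Rev.mono (Nat.le_succ i) h)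
    have hzs : z ≠ ph (orb ω p i) := fun h => hzR (rev_succ.2 (Or.inr h))
    have hB : z ∈ U \ expl U ω p i := mem_sd.2 ⟨hz, hzR'⟩
    have e0 : U \ expl U ω p (i + 1) = (U \ expl U ω p i) \ {ph (orb ω p i)} := by
      ext f
      rw [mem_sd, Finset.mem_sdiff, mem_sd, Finset.mem_singleton, rev_succ]
      tauto
    unfold unx
    rw [e0]
    by_cases hsz : ph (orb ω p i) ∈ unx U ω p i z
    · have hSt := ih z hz hzR'
      have hzD : z ∈ unx U ω p i z := unx_self hz hzR'
      have hBi := hp.2.2.2.orb i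
      have hpl : pl (orb ω p i) ∉ unx U ω p i z := fun h => (mem_unx h).2 ⟨i, le_rfl, Or.inl rfl⟩
      have hpr : pr (orb ω p i) ∉ unx U ω p i z := fun h => (mem_unx h).2 ⟨i, le_rfl, Or.inr rfl⟩
      have e := comp_comp (B := U \ expl U ω p i) (K := {ph (orb ω p i)}) hB (by simpa using hzs)
      rw [← e]
      cases hc : ω (ph (orb ω p i))
      · exact peel _ _ hSt _ hsz _ hpr (adj_hr _) (by rw [hc, hBi.2]) z hzD hzs
      · exact peel _ _ hSt _ hsz _ hpl (adj_hl _) (by rw [hc, hBi.1]) z hzD hzs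
    · have e : comp ((U \ expl U ω p i) \ {ph (orb ω p i)}) z = comp (U \ expl U ω p i) z := by
        ext f
        constructor
        · intro hf
          exact comp_mono Finset.sdiff_subset z hf
        · intro hf
          refine sub_comp (W := ↑(comp (U \ expl U ω p i) z)) ?_
            (fun g hg => comp_jn (by exact_mod_cast hg)) f (by exact_mod_cast hf)
          intro g hg
          have hg' : g ∈ comp (U \ expl U ω p i) z := by exact_mod_cast hg
          rw [Finset.mem_coe, Finset.mem_sdiff, Finset.mem_singleton]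
          exact ⟨comp_sub _ _ hg', fun h => hsz (h ▸ hg')⟩
      rw [e]
      exact ih z hz hzR'

/-- **STI** -/
theorem sti : STI := fun U ω p hU hp i _ z hz hz' => sti' U ω p hU hp i z hz hz'

/-- a tip of a component of the unexplored part -/
theorem tip_unx {U : Finset Fc} {ω : Fc → Bool} {p : Pos} (hp : Bi ω p) {i : ℕ} {z : Fc}
    (h : ph (orb ω p i) ∈ unx U ω p i z) : IsTip (unx U ω p i z) ω (orb ω p i) :=
  ⟨h, fun h' => (mem_unx h').2 ⟨i, le_rfl, Or.inl rfl⟩,
    fun h' => (mem_unx h').2 ⟨i, le_rfl, Or.inr rfl⟩, hp.orb i⟩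

/-- the components of the unexplored part: later components inside an earlier one -/
theorem unx_unx {W : Finset Fc} {ω : Fc → Bool} {p : Pos} {t0 i : ℕ} {v z : Fc} (hv : v ∈ W)
    (hv' : v ∉ Rev ω p t0) (hz : z ∈ unx W ω p t0 v) (hz' : z ∉ Rev ω p (t0 + i)) :
    unx W ω p (t0 + i) z = unx (unx W ω p t0 v) ω (orb ω p t0) i z := by
  have hvB : v ∈ W \ expl W ω p t0 := mem_sd.2 ⟨hv, hv'⟩
  have hzB : z ∈ W \ expl W ω p t0 := comp_sub _ _ hz
  have hzK : z ∉ expl W ω p (t0 + i) := fun h => hz' (mem_expl.1 h).2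
  have e1 := comp_comp (B := W \ expl W ω p t0) (K := expl W ω p (t0 + i)) hzB hzK
  have e2 : comp (W \ expl W ω p t0) z = unx W ω p t0 v := comp_eq_of_mem hvB hz
  have e3 : (W \ expl W ω p t0) \ expl W ω p (t0 + i) = W \ expl W ω p (t0 + i) := by
    ext f
    rw [Finset.mem_sdiff, mem_sd, mem_sd, mem_expl, rev_add]
    tauto
  have e4 : unx W ω p t0 v \ expl W ω p (t0 + i) =
      unx W ω p t0 v \ expl (unx W ω p t0 v) ω (orb ω p t0) i := by
    ext f
    rw [mem_sd, Finset.mem_sdiff, mem_expl, rev_add]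
    constructor
    · rintro ⟨h1, h2⟩
      have h3 := mem_unx h1
      exact ⟨h1, fun h => h2 ⟨h3.1, Or.inr h⟩⟩
    · rintro ⟨h1, h2⟩
      have h3 := mem_unx h1
      refine ⟨h1, ?_⟩
      rintro ⟨_, h | h⟩
      · exact h3.2 h
      · exact h2 h
  rw [e2, e3, e4] at e1
  unfold unx at e1 ⊢
  exact e1.symm

/-- **RST** -/
theorem rst : RST := by
  intro W ω p hW hp t0 f0 v hask hv hv' hf0
  obtain ⟨hins, hph, _, hfR⟩ := hask
  have hSt : St (unx W ω p t0 v) ω := sti' W ω p hW hp t0 v hv hv'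
  have hT : IsTip (unx W ω p t0 v) ω (orb ω p t0) := tip_unx hp.2.2.2 (by rw [hph]; exact hf0)
  have hsub : ∀ f, f ∈ unx W ω p t0 v → f ∈ W := fun f hf => (mem_unx hf).1
  refine ⟨hSt, hT, ?_, ?_, ?_⟩
  · rintro i f ⟨h1, h2, h3, h4⟩
    refine ⟨?_, ?_, hsub f h3, ?_⟩
    · intro i' g1 g2
      rcases Nat.lt_or_ge t0 i' with h | h
      · have h5 := h1 (i' - t0) (by omega) (by omega)
        rw [← orb_add, Nat.add_sub_cancel' h.le] at h5
        exact h5.imp (hsub _) (hsub _)
      · exact hins i' g1 h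
    · rw [orb_add]; exact h2
    · rw [rev_add]
      rintro (h | h)
      · exact (mem_unx h3).2 h
      · exact h4 h
  · rintro i f j g ⟨a1, a2, a3, a4⟩ hij ⟨b1, b2, b3, b4⟩ hg
    obtain ⟨n, hn⟩ := int1' (unx W ω p t0 v) ω (orb ω p t0) hT
    -- `g` is revealed at the time `j + 1`, hence `j < n`
    have hjn : j < n := by
      by_contra hlt
      have h1 : g = pl (orb ω (orb ω p t0) (j + 1)) ∨ g = pr (orb ω (orb ω p t0) (j + 1)) := by
        rw [orb_add] at b2
        rw [← b2]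
        exact ph_next ω (orb ω p t0) j
      have h2 := after_exit int2' ne hSt hT hn hg h1
      exact b4 (rev_add.2 (Or.inr (Rev.mono (by omega) h2)))
    have hin : Ins (unx W ω p t0 v) ω (orb ω p t0) i := fun i' g1 g2 => hn.2.1 i' g1 (by omega)
    rw [orb_add] at a2
    refine ⟨hin, a2, ?_, fun h => a4 (rev_add.2 (Or.inr h))⟩
    rcases Nat.eq_zero_or_pos i with h0 | h0
    · subst h0
      rw [orb_zero, hph] at a2
      rw [← a2]; exact hf0
    · have h1 := hin i h0 le_rfl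
      rw [inE_pe] at h1
      have hfB : f ∈ W \ expl W ω p t0 :=
        mem_sd.2 ⟨a3, fun h => a4 (Rev.mono (Nat.le_add_right t0 i) h)⟩
      rcases h1 with h1 | h1
      · exact comp_adj h1 hfB (a2 ▸ adjF_symm (adj_hl _))
      · exact comp_adj h1 hfB (a2 ▸ adjF_symm (adj_hr _))
  · intro i z _ hz hz'
    exact unx_unx hv hv' hz hz'

end Pool.Agent.H11.Lv
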